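import Pool.Agent.H95.SNQ.Ex

/-!
# MP_d3d931_al, Q2

Negative answer: a semigroup which is left 2-nilpotent and right 2-nilpotent, but not
supernilpotent.  It is generated by five elements.

The definitions (higher commutators of congruences of a semigroup, supernilpotence, left and right
nilpotence) are the ones of `Pool.Agent.R349.SNDefs`:
* `Mat m S` : matrices over `S` with rows indexed by `Fin m → Bool` and two columns;
* `gens α β`, `MM α β` : the generating matrices and the subsemigroup
  `M(α_1, …, α_m, β)` generated by them;
* `comm α β` : the higher commutator `[α_1, …, α_m, β]`, the least congruence satisfying the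
  term condition for `MM α β`;
* `Supernilpotent S d`, `leftS S d = ⊥`, `rightS S d = ⊥` : `d`-supernilpotence, left
  `d`-nilpotence and right `d`-nilpotence.
-/

namespace Pool.Agent.Results.MP_d3d931_al.NilpotentNotSupernilpotent

open Pool.Agent.R349.SN

/-- **Q2 of MP_d3d931_al.** A semigroup that is both left nilpotent and right nilpotent need not be
supernilpotent: there is a five-generated semigroup that is left 2-nilpotent and right 2-nilpotent
and is not `d`-supernilpotent for any `d`. -/
theorem result :
    ∃ (S : Type) (_ : Semigroup S),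
      (∃ t : Finset S, t.card ≤ 5 ∧ Subsemigroup.closure (t : Set S) = ⊤) ∧
      leftS S 2 = ⊥ ∧ rightS S 2 = ⊥ ∧ ∀ d : ℕ, ¬ Supernilpotent S d :=
  ⟨Pool.Agent.H95.SNQ.S5, inferInstance, Pool.Agent.H95.SNQ.S5_fg, Pool.Agent.H95.SNQ.S5_left,
    Pool.Agent.H95.SNQ.S5_right, Pool.Agent.H95.SNQ.S5_not⟩

end Pool.Agent.Results.MP_d3d931_al.NilpotentNotSupernilpotent
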